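import Pool.Agent.U136.DX.Stm

set_option autoImplicit false

/-!
# Project DX, package TRI: the sum over the near-resonant triads
-/

namespace Pool.Agent.U123.DX

open Pool.Agent.N983.RT Pool.Agent.U136.DS Pool.Agent.U136.DX Finset

theorem nsq_nn (k : Wv) : 0 ≤ nsq k := Finset.sum_nonneg fun _ _ => sq_nonneg _

theorem nsq_ge_one {k : Wv} (hk : k ≠ 0) : 1 ≤ nsq k := by
  obtain ⟨i, hi⟩ : ∃ i, k i ≠ 0 := by
    by_contra hcon
    push Not at hcon
    exact hk (funext hcon)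
  have h1 : (1 : ℝ) ≤ (k i : ℝ) ^ 2 := by
    have h2 : (1 : ℤ) ≤ (k i) ^ 2 := by
      have := sq_nonneg (k i)
      have h3 : (k i) ^ 2 ≠ 0 := pow_ne_zero 2 hi
      omega
    exact_mod_cast h2
  exact h1.trans (Finset.single_le_sum (f := fun i => (k i : ℝ) ^ 2) (fun j _ => sq_nonneg _)
    (Finset.mem_univ i))

/-- the square length of a sum -/
theorem nsq_sum_le {a b c : Wv} (h : a + b + c = 0) : nsq c ≤ 2 * nsq a + 2 * nsq b := by
  have hc : ∀ i, c i = -(a i + b i) := by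
    intro i
    have := congrFun h i
    simp only [Pi.add_apply, Pi.zero_apply] at this
    omega
  unfold nsq
  rw [Finset.mul_sum, Finset.mul_sum, ← Finset.sum_add_distrib]
  refine Finset.sum_le_sum fun i _ => ?_
  rw [hc i]
  push_cast
  nlinarith [sq_nonneg ((a i : ℝ) - b i)]

theorem mx_le {a b c : Wv} (h : a + b + c = 0) (h1 : nsq a ≤ nsq b) (h2 : nsq a ≤ nsq c) :
    mx b c a ≤ 4 * nsq b ∧ mx b c a ≤ 4 * nsq c := by
  have h3 := nsq_sum_le h
  have h4 : nsq b ≤ 2 * nsq a + 2 * nsq c := nsq_sum_le (by rw [← h]; abel)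
  have ha := nsq_nn a
  unfold mx
  constructor
  · refine max_le ?_ (max_le ?_ ?_) <;> linarith
  · refine max_le ?_ (max_le ?_ ?_) <;> linarith

theorem mem_cub_of {v : Wv} {c : ℕ} (h : nsq v < (4 : ℝ) ^ (c + 1)) : v ∈ cub (2 ^ (c + 1)) := by
  unfold cub
  rw [Fintype.mem_piFinset]
  intro i
  have h1 : (v i : ℝ) ^ 2 ≤ nsq v := Finset.single_le_sum (f := fun i => (v i : ℝ) ^ 2)
    (fun j _ => sq_nonneg _) (Finset.mem_univ i)
  have h2 : (v i : ℝ) ^ 2 < ((2 : ℝ) ^ (c + 1)) ^ 2 := by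
    refine (h1.trans_lt h).trans_le (le_of_eq ?_)
    rw [← pow_mul, mul_comm, pow_mul]
    norm_num
  have h3 : |(v i : ℝ)| < (2 : ℝ) ^ (c + 1) := abs_lt_of_sq_lt_sq h2 (by positivity)
  rw [abs_lt] at h3
  rw [Finset.mem_Icc]
  constructor
  · have h4 : (-((2 : ℤ) ^ (c + 1)) : ℤ) ≤ v i := by
      have : (-((2 : ℝ) ^ (c + 1))) ≤ (v i : ℝ) := h3.1.le
      exact_mod_cast this
    push_cast
    exact h4
  · have h4 : v i ≤ (2 : ℤ) ^ (c + 1) := by
      have : (v i : ℝ) ≤ (2 : ℝ) ^ (c + 1) := h3.2.le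
      exact_mod_cast this
    push_cast
    exact h4

/-- Cauchy-Schwarz over a set of triads -/
theorem gen {ι : Type} [DecidableEq ι] (P : Finset ι) (a b c : ι → Wv) (Q S : Finset Wv)
    (w F : Wv → ℝ) (N : ℝ)
    (hN : ∀ v ∈ Q, ((P.filter fun i => a i = v).card : ℝ) ≤ N) (haQ : ∀ i ∈ P, a i ∈ Q)
    (hb : ∀ i ∈ P, b i ∈ S) (hc : ∀ i ∈ P, c i ∈ S)
    (hinj : ∀ i ∈ P, ∀ j ∈ P, b i = b j → c i = c j → i = j) :
    ∑ i ∈ P, w (a i) * (F (b i) * F (c i)) ≤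
      Real.sqrt (N * ∑ v ∈ Q, w v ^ 2) * ∑ v ∈ S, F v ^ 2 := by
  classical
  have h1 : ∑ i ∈ P, w (a i) ^ 2 ≤ N * ∑ v ∈ Q, w v ^ 2 := by
    rw [← Finset.sum_fiberwise_of_maps_to haQ, Finset.mul_sum]
    refine Finset.sum_le_sum fun v hv => ?_
    have e : ∀ i ∈ P.filter (fun i => a i = v), w (a i) ^ 2 = w v ^ 2 := by
      intro i hi
      rw [(Finset.mem_filter.1 hi).2]
    rw [Finset.sum_congr rfl e, Finset.sum_const, nsmul_eq_mul]
    exact mul_le_mul_of_nonneg_right (hN v hv) (sq_nonneg _)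
  have h2 : ∑ i ∈ P, (F (b i) * F (c i)) ^ 2 ≤ (∑ v ∈ S, F v ^ 2) ^ 2 := by
    have hinj' : Set.InjOn (fun i => (b i, c i)) (P : Set ι) := by
      intro i hi j hj hij
      exact hinj i hi j hj (congrArg Prod.fst hij) (congrArg Prod.snd hij)
    have e1 : ∑ i ∈ P, (F (b i) * F (c i)) ^ 2 =
        ∑ x ∈ P.image (fun i => (b i, c i)), (F x.1 * F x.2) ^ 2 := by
      rw [Finset.sum_image hinj']
    have e2 : (∑ v ∈ S, F v ^ 2) ^ 2 = ∑ x ∈ S ×ˢ S, (F x.1 * F x.2) ^ 2 := by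
      rw [sq, Finset.sum_mul_sum, Finset.sum_product]
      refine Finset.sum_congr rfl fun x _ => Finset.sum_congr rfl fun y _ => ?_
      ring
    rw [e1, e2]
    refine Finset.sum_le_sum_of_subset_of_nonneg ?_ fun x _ _ => sq_nonneg _
    intro x hx
    obtain ⟨i, hi, rfl⟩ := Finset.mem_image.1 hx
    exact Finset.mem_product.2 ⟨hb i hi, hc i hi⟩
  refine (Real.sum_mul_le_sqrt_mul_sqrt P (fun i => w (a i)) fun i => F (b i) * F (c i)).trans ?_
  refine mul_le_mul (Real.sqrt_le_sqrt h1) ?_ (Real.sqrt_nonneg _) (Real.sqrt_nonneg _)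
  rw [← Real.sqrt_sq (Finset.sum_nonneg fun v (_ : v ∈ S) => sq_nonneg (F v))]
  exact Real.sqrt_le_sqrt h2

open Classical in
/-- the vectors in the shell `c` -/
noncomputable def Sh (n c : ℕ) : Finset Wv :=
  (cub n).filter fun v => (4 : ℝ) ^ c ≤ 4 * nsq v ∧ nsq v < (4 : ℝ) ^ (c + 1)

theorem mem_Sh {n c : ℕ} {v : Wv} :
    v ∈ Sh n c ↔ v ∈ cub n ∧ (4 : ℝ) ^ c ≤ 4 * nsq v ∧ nsq v < (4 : ℝ) ^ (c + 1) := by
  unfold Sh
  exact Finset.mem_filter

/-- one shell, one position of the shortest wave vector -/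
theorem shell {g : Wv → Wv → Wv → ℝ} {B : ℝ} (hD : DegG g B) (n c : ℕ) (f : Wv → ℝ)
    (P : Finset (Wv × Wv)) (α β γ : Wv × Wv → Wv)
    (hα : ∀ x ∈ P, α x ∈ cub n) (hβ : ∀ x ∈ P, β x ∈ cub n) (hγ : ∀ x ∈ P, γ x ∈ cub n)
    (hsum : ∀ x ∈ P, α x + β x + γ x = 0)
    (hinj : ∀ x ∈ P, ∀ y ∈ P, β x = β y → γ x = γ y → x = y)
    (hgne : ∀ x ∈ P, g (β x) (γ x) (α x) ≠ 0)
    (hc1 : ∀ x ∈ P, (4 : ℝ) ^ c ≤ mx (β x) (γ x) (α x))
    (hc2 : ∀ x ∈ P, mx (β x) (γ x) (α x) < (4 : ℝ) ^ (c + 1))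
    (hs1 : ∀ x ∈ P, nsq (α x) ≤ nsq (β x)) (hs2 : ∀ x ∈ P, nsq (α x) ≤ nsq (γ x)) :
    ∑ x ∈ P, (Real.sqrt (nsq (α x)) * f (α x)) * (f (β x) * f (γ x)) ≤
      Real.sqrt (B * (4 : ℝ) ^ c * ∑ v ∈ cub n, nsq v * f v ^ 2) * ∑ v ∈ Sh n c, f v ^ 2 := by
  classical
  have e : ∑ v ∈ cub n, nsq v * f v ^ 2 = ∑ v ∈ cub n, (Real.sqrt (nsq v) * f v) ^ 2 := by
    refine Finset.sum_congr rfl fun v _ => ?_
    rw [mul_pow, Real.sq_sqrt (nsq_nn v)]
  rw [e]
  have hb : ∀ x ∈ P, nsq (β x) ≤ mx (β x) (γ x) (α x) := fun x _ => le_max_left _ _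
  have hc : ∀ x ∈ P, nsq (γ x) ≤ mx (β x) (γ x) (α x) :=
    fun x _ => (le_max_left _ _).trans (le_max_right _ _)
  refine gen P α β γ (cub n) (Sh n c) (fun v => Real.sqrt (nsq v) * f v) f (B * (4 : ℝ) ^ c)
    (fun v _ => ?_) hα (fun x hx => ?_) (fun x hx => ?_) hinj
  · refine le_trans ?_ (hD c v)
    have hcard : (P.filter fun x => α x = v).card ≤
        ((cub (2 ^ (c + 1))).filter fun k => g k (-(k + v)) v ≠ 0 ∧
          (4 : ℝ) ^ c ≤ mx k (-(k + v)) v ∧ mx k (-(k + v)) v < (4 : ℝ) ^ (c + 1)).card := by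
      refine Finset.card_le_card_of_injOn β ?_ ?_
      · intro x hx
        rw [Finset.mem_coe, Finset.mem_filter] at hx
        obtain ⟨hx, rfl⟩ := hx
        have e1 : -(β x + α x) = γ x := by
          have := hsum x hx
          rw [neg_eq_iff_add_eq_zero]
          rw [← this]
          abel
        rw [Finset.mem_coe, Finset.mem_filter, e1]
        exact ⟨mem_cub_of ((hb x hx).trans_lt (hc2 x hx)), hgne x hx, hc1 x hx, hc2 x hx⟩
      · intro x hx y hy hxy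
        rw [Finset.mem_coe, Finset.mem_filter] at hx hy
        have h1 := hsum x hx.1
        have h2 := hsum y hy.1
        rw [hx.2] at h1
        rw [hy.2, ← hxy] at h2
        exact hinj x hx.1 y hy.1 hxy (add_left_cancel (h1.trans h2.symm))
    exact_mod_cast hcard
  · have h1 := (mx_le (hsum x hx) (hs1 x hx) (hs2 x hx)).1
    exact mem_Sh.2 ⟨hβ x hx, (hc1 x hx).trans h1, (hb x hx).trans_lt (hc2 x hx)⟩
  · have h1 := (mx_le (hsum x hx) (hs1 x hx) (hs2 x hx)).2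
    exact mem_Sh.2 ⟨hγ x hx, (hc1 x hx).trans h1, (hc x hx).trans_lt (hc2 x hx)⟩

/-- the factor of a shell -/
theorem shell_weight (B E : ℝ) (n c s : ℕ) (f : Wv → ℝ) :
    ((4 : ℝ) ^ (c + 1)) ^ s * (Real.sqrt (B * (4 : ℝ) ^ c * E) * ∑ v ∈ Sh n c, f v ^ 2) ≤
      2 * 16 ^ s * Real.sqrt (B * E) *
        ∑ v ∈ Sh n c, nsq v ^ s * Real.sqrt (nsq v) * f v ^ 2 := by
  have e1 : Real.sqrt (B * (4 : ℝ) ^ c * E) = 2 ^ c * Real.sqrt (B * E) := by
    have : B * (4 : ℝ) ^ c * E = (2 ^ c) ^ 2 * (B * E) := by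
      rw [← pow_mul, mul_comm c 2, pow_mul]
      norm_num
      ring
    rw [this, Real.sqrt_mul (by positivity), Real.sqrt_sq (by positivity)]
  rw [e1, Finset.mul_sum, Finset.mul_sum, Finset.mul_sum]
  refine Finset.sum_le_sum fun v hv => ?_
  obtain ⟨-, h1, -⟩ := mem_Sh.1 hv
  have hn := nsq_nn v
  have h2 : ((4 : ℝ) ^ (c + 1)) ^ s ≤ 16 ^ s * nsq v ^ s := by
    rw [← mul_pow]
    refine pow_le_pow_left₀ (by positivity) ?_ s
    rw [pow_succ]
    linarith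
  have h3 : (2 : ℝ) ^ c ≤ 2 * Real.sqrt (nsq v) := by
    have e2 : (2 : ℝ) ^ c = Real.sqrt ((4 : ℝ) ^ c) := by
      have : (4 : ℝ) ^ c = (2 ^ c) ^ 2 := by
        rw [← pow_mul, mul_comm c 2, pow_mul]
        norm_num
      rw [this, Real.sqrt_sq (by positivity)]
    have e3 : 2 * Real.sqrt (nsq v) = Real.sqrt (4 * nsq v) := by
      rw [Real.sqrt_mul (by norm_num), show (4 : ℝ) = 2 ^ 2 by norm_num,
        Real.sqrt_sq (by norm_num)]
    rw [e2, e3]
    exact Real.sqrt_le_sqrt h1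
  have h4 : ((4 : ℝ) ^ (c + 1)) ^ s * 2 ^ c ≤ (16 ^ s * nsq v ^ s) * (2 * Real.sqrt (nsq v)) :=
    mul_le_mul h2 h3 (by positivity) (by positivity)
  have h5 : 0 ≤ Real.sqrt (B * E) * f v ^ 2 := by positivity
  calc ((4 : ℝ) ^ (c + 1)) ^ s * (2 ^ c * Real.sqrt (B * E) * f v ^ 2)
      = ((4 : ℝ) ^ (c + 1)) ^ s * 2 ^ c * (Real.sqrt (B * E) * f v ^ 2) := by ring
    _ ≤ (16 ^ s * nsq v ^ s) * (2 * Real.sqrt (nsq v)) * (Real.sqrt (B * E) * f v ^ 2) :=
        mul_le_mul_of_nonneg_right h4 h5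
    _ = _ := by ring

/-- every vector is in at most two shells -/
theorem shells_le (n : ℕ) (t : Finset ℕ) (h : Wv → ℝ) (hh : ∀ v, 0 ≤ h v) :
    ∑ c ∈ t, ∑ v ∈ Sh n c, h v ≤ 2 * ∑ v ∈ cub n, h v := by
  classical
  have e1 : ∀ c ∈ t, ∑ v ∈ Sh n c, h v = ∑ v ∈ cub n,
      if (4 : ℝ) ^ c ≤ 4 * nsq v ∧ nsq v < (4 : ℝ) ^ (c + 1) then h v else 0 := by
    intro c _
    rw [← Finset.sum_filter]
    refine Finset.sum_congr ?_ fun _ _ => rfl
    ext v
    rw [mem_Sh, Finset.mem_filter]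
  rw [Finset.sum_congr rfl e1, Finset.sum_comm, Finset.mul_sum]
  refine Finset.sum_le_sum fun v _ => ?_
  rw [← Finset.sum_filter, Finset.sum_const, nsmul_eq_mul]
  refine mul_le_mul_of_nonneg_right ?_ (hh v)
  have hsub : t.filter (fun c => (4 : ℝ) ^ c ≤ 4 * nsq v ∧ nsq v < (4 : ℝ) ^ (c + 1)) ⊆
      {Nat.log 4 ⌊nsq v⌋₊, Nat.log 4 ⌊nsq v⌋₊ + 1} := by
    intro c hc
    rw [Finset.mem_filter] at hc
    obtain ⟨-, hc1, hc2⟩ := hc
    have hpos : 0 < nsq v := by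
      have : (0 : ℝ) < (4 : ℝ) ^ c := by positivity
      linarith
    have h1 : 1 ≤ nsq v := by
      refine nsq_ge_one ?_
      rintro rfl
      unfold nsq at hpos
      simp at hpos
    have hfl : ⌊nsq v⌋₊ ≠ 0 := by
      have := Nat.floor_pos.2 h1
      omega
    have h2 : (4 : ℝ) ^ (Nat.log 4 ⌊nsq v⌋₊) ≤ nsq v := by
      have := Nat.pow_log_le_self 4 hfl
      calc (4 : ℝ) ^ (Nat.log 4 ⌊nsq v⌋₊) ≤ (⌊nsq v⌋₊ : ℝ) := by exact_mod_cast this
        _ ≤ nsq v := Nat.floor_le hpos.le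
    have h3 : nsq v < (4 : ℝ) ^ (Nat.log 4 ⌊nsq v⌋₊ + 1) := by
      have := Nat.lt_pow_succ_log_self (b := 4) (by norm_num) ⌊nsq v⌋₊
      have h4 := (Nat.floor_lt hpos.le).1 this
      exact_mod_cast h4
    have h5 : Nat.log 4 ⌊nsq v⌋₊ < c + 1 :=
      (pow_lt_pow_iff_right₀ (by norm_num : (1 : ℝ) < 4)).1 (h2.trans_lt hc2)
    have h6 : c < Nat.log 4 ⌊nsq v⌋₊ + 2 := by
      refine (pow_lt_pow_iff_right₀ (by norm_num : (1 : ℝ) < 4)).1 (hc1.trans_lt ?_)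
      rw [pow_succ _ (Nat.log 4 ⌊nsq v⌋₊ + 1)]
      linarith
    rw [Finset.mem_insert, Finset.mem_singleton]
    omega
  have hcard := (Finset.card_le_card hsub).trans Finset.card_le_two
  exact_mod_cast hcard

theorem t_TRI : S_TRI := by
  classical
  intro g B h12 h23 hg1 hg0 hD s
  have hB : 0 ≤ B := by
    have h1 := hD 0 0
    have h2 : (0 : ℝ) ≤ B * (4 : ℝ) ^ 0 := le_trans (Nat.cast_nonneg _) h1
    simpa using h2
  refine ⟨12 * 16 ^ s * Real.sqrt B, by positivity, fun n f hf hfn => ?_⟩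
  obtain ⟨th, hth⟩ : ∃ th : Wv × Wv → Wv, th = fun x => -(x.1 + x.2) := ⟨_, rfl⟩
  obtain ⟨T, hT⟩ : ∃ T : Wv × Wv → ℝ, T = fun x => |g x.1 x.2 (th x)| *
      (mn x.1 x.2 (th x) ^ (1 / 2 : ℝ) * mx x.1 x.2 (th x) ^ s) * (f x.1 * f x.2 * f (th x)) :=
    ⟨_, rfl⟩
  have hmn : ∀ a b c : Wv, 0 ≤ mn a b c := fun a b c =>
    le_min (nsq_nn a) (le_min (nsq_nn b) (nsq_nn c))
  have hmx : ∀ a b c : Wv, 0 ≤ mx a b c := fun a b c => (nsq_nn a).trans (le_max_left _ _)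
  have hT0 : ∀ x, 0 ≤ T x := by
    intro x
    rw [hT]
    have h1 := Real.rpow_nonneg (hmn x.1 x.2 (th x)) (1 / 2 : ℝ)
    have h2 := pow_nonneg (hmx x.1 x.2 (th x)) s
    have h3 := hf x.1
    have h4 := hf x.2
    have h5 := hf (th x)
    positivity
  have hsum : ∀ x : Wv × Wv, x.1 + x.2 + th x = 0 := by
    intro x
    rw [hth]
    exact add_neg_cancel _
  obtain ⟨P, hP⟩ : ∃ P : Finset (Wv × Wv), P = (cub n ×ˢ cub n).filter
      (fun x => th x ∈ cub n ∧ g x.1 x.2 (th x) ≠ 0) := ⟨_, rfl⟩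
  have hLHS : ∑ k ∈ cub n, ∑ l ∈ cub n, |g k l (-(k + l))| *
      (mn k l (-(k + l)) ^ (1 / 2 : ℝ) * mx k l (-(k + l)) ^ s) * (f k * f l * f (-(k + l))) =
      ∑ x ∈ P, T x := by
    rw [hP, Finset.sum_filter_of_ne, Finset.sum_product, hT, hth]
    intro x _ hx
    rw [hT] at hx
    constructor
    · by_contra hcon
      apply hx
      simp only [hfn _ hcon, mul_zero]
    · intro hcon
      apply hx
      simp only [hcon, abs_zero, zero_mul]
  rw [hLHS]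
  -- the shells
  obtain ⟨cc, hcc⟩ : ∃ cc : Wv × Wv → ℕ, cc = fun x => Nat.log 4 ⌊mx x.1 x.2 (th x)⌋₊ := ⟨_, rfl⟩
  have hccP : ∀ x ∈ P, (4 : ℝ) ^ cc x ≤ mx x.1 x.2 (th x) ∧
      mx x.1 x.2 (th x) < (4 : ℝ) ^ (cc x + 1) := by
    intro x hx
    rw [hP, Finset.mem_filter] at hx
    have hx1 : x.1 ≠ 0 := fun h => hx.2.2 (hg0 _ _ _ (Or.inl h))
    have h1 : 1 ≤ mx x.1 x.2 (th x) := (nsq_ge_one hx1).trans (le_max_left _ _)
    have hfl : ⌊mx x.1 x.2 (th x)⌋₊ ≠ 0 := by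
      have := Nat.floor_pos.2 h1
      omega
    rw [hcc]
    constructor
    · have := Nat.pow_log_le_self 4 hfl
      calc (4 : ℝ) ^ (Nat.log 4 ⌊mx x.1 x.2 (th x)⌋₊) ≤ (⌊mx x.1 x.2 (th x)⌋₊ : ℝ) := by
            exact_mod_cast this
        _ ≤ mx x.1 x.2 (th x) := Nat.floor_le (by linarith)
    · have := Nat.lt_pow_succ_log_self (b := 4) (by norm_num) ⌊mx x.1 x.2 (th x)⌋₊
      have h4 := (Nat.floor_lt (by linarith)).1 this
      exact_mod_cast h4
  have hmaps : ∀ x ∈ P, cc x ∈ P.image cc := fun x hx => Finset.mem_image_of_mem cc hx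
  rw [← Finset.sum_fiberwise_of_maps_to hmaps]
  obtain ⟨E, hE⟩ : ∃ E : ℝ, E = ∑ v ∈ cub n, nsq v * f v ^ 2 := ⟨_, rfl⟩
  have hE0 : 0 ≤ E := by
    rw [hE]
    exact Finset.sum_nonneg fun v _ => mul_nonneg (nsq_nn v) (sq_nonneg _)
  rw [← hE]
  -- one shell
  have hone : ∀ c ∈ P.image cc, ∑ x ∈ P.filter (fun x => cc x = c), T x ≤
      3 * (((4 : ℝ) ^ (c + 1)) ^ s * (Real.sqrt (B * (4 : ℝ) ^ c * E) *
        ∑ v ∈ Sh n c, f v ^ 2)) := by
    intro c _
    obtain ⟨Pc, hPc⟩ : ∃ Pc : Finset (Wv × Wv), Pc = P.filter (fun x => cc x = c) := ⟨_, rfl⟩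
    rw [← hPc]
    have hPc' : ∀ x ∈ Pc, x.1 ∈ cub n ∧ x.2 ∈ cub n ∧ th x ∈ cub n ∧ g x.1 x.2 (th x) ≠ 0 ∧
        (4 : ℝ) ^ c ≤ mx x.1 x.2 (th x) ∧ mx x.1 x.2 (th x) < (4 : ℝ) ^ (c + 1) := by
      intro x hx
      rw [hPc, Finset.mem_filter] at hx
      obtain ⟨hx1, hx2⟩ := hx
      have h1 := hccP x hx1
      rw [hx2] at h1
      rw [hP, Finset.mem_filter, Finset.mem_product] at hx1
      exact ⟨hx1.1.1, hx1.1.2, hx1.2.1, hx1.2.2, h1.1, h1.2⟩
    -- the bound for one triad with shortest member `a`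
    have hTle : ∀ x ∈ Pc, ∀ a b d : Wv, nsq a = mn x.1 x.2 (th x) →
        f x.1 * f x.2 * f (th x) = f a * (f b * f d) →
        T x ≤ ((4 : ℝ) ^ (c + 1)) ^ s * ((Real.sqrt (nsq a) * f a) * (f b * f d)) := by
      intro x hx a b d ha hprod
      obtain ⟨-, -, -, -, -, h6⟩ := hPc' x hx
      rw [hT]
      simp only
      rw [← ha, ← Real.sqrt_eq_rpow, hprod]
      have h1 : mx x.1 x.2 (th x) ^ s ≤ ((4 : ℝ) ^ (c + 1)) ^ s :=
        pow_le_pow_left₀ (hmx _ _ _) h6.le s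
      have h2 : 0 ≤ f a * (f b * f d) := mul_nonneg (hf a) (mul_nonneg (hf b) (hf d))
      calc |g x.1 x.2 (th x)| * (Real.sqrt (nsq a) * mx x.1 x.2 (th x) ^ s) *
            (f a * (f b * f d))
          ≤ 1 * (Real.sqrt (nsq a) * ((4 : ℝ) ^ (c + 1)) ^ s) * (f a * (f b * f d)) := by
            refine mul_le_mul_of_nonneg_right ?_ h2
            refine mul_le_mul (hg1 _ _ _) ?_ ?_ zero_le_one
            · exact mul_le_mul_of_nonneg_left h1 (Real.sqrt_nonneg _)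
            · exact mul_nonneg (Real.sqrt_nonneg _) (pow_nonneg (hmx _ _ _) s)
        _ = _ := by ring
    have hmnle : ∀ x : Wv × Wv, mn x.1 x.2 (th x) ≤ nsq x.1 ∧ mn x.1 x.2 (th x) ≤ nsq x.2 ∧
        mn x.1 x.2 (th x) ≤ nsq (th x) := fun x =>
      ⟨min_le_left _ _, (min_le_right _ _).trans (min_le_left _ _),
        (min_le_right _ _).trans (min_le_right _ _)⟩
    have h4s : (0 : ℝ) ≤ ((4 : ℝ) ^ (c + 1)) ^ s := by positivity
    -- position 1
    have k1 : ∑ x ∈ Pc.filter (fun x => nsq x.1 = mn x.1 x.2 (th x)), T x ≤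
        ((4 : ℝ) ^ (c + 1)) ^ s * (Real.sqrt (B * (4 : ℝ) ^ c * E) * ∑ v ∈ Sh n c, f v ^ 2) := by
      rw [hE]
      refine le_trans (Finset.sum_le_sum fun x hx => hTle x (Finset.mem_filter.1 hx).1 x.1 x.2
        (th x) (Finset.mem_filter.1 hx).2 (by ring)) ?_
      rw [← Finset.mul_sum]
      refine mul_le_mul_of_nonneg_left ?_ h4s
      have hmem : ∀ x ∈ Pc.filter (fun x => nsq x.1 = mn x.1 x.2 (th x)),
          x ∈ Pc ∧ nsq x.1 = mn x.1 x.2 (th x) := fun x hx => Finset.mem_filter.1 hx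
      have hm : ∀ x : Wv × Wv, mx x.2 (th x) x.1 = mx x.1 x.2 (th x) := by
        intro x
        unfold mx
        rw [max_comm (nsq (th x)) (nsq x.1), max_left_comm]
      have hgg : ∀ x : Wv × Wv, g x.2 (th x) x.1 = g x.1 x.2 (th x) := by
        intro x
        rw [h23, h12]
      refine shell hD n c f _ (fun x => x.1) (fun x => x.2) th
        (fun x hx => (hPc' x (hmem x hx).1).1) (fun x hx => (hPc' x (hmem x hx).1).2.1)
        (fun x hx => (hPc' x (hmem x hx).1).2.2.1) (fun x _ => hsum x)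
        (fun x _ y _ h1 h2 => ?_)
        (fun x hx => by rw [hgg]; exact (hPc' x (hmem x hx).1).2.2.2.1)
        (fun x hx => by rw [hm]; exact (hPc' x (hmem x hx).1).2.2.2.2.1)
        (fun x hx => by rw [hm]; exact (hPc' x (hmem x hx).1).2.2.2.2.2)
        (fun x hx => by rw [(hmem x hx).2]; exact (hmnle x).2.1)
        (fun x hx => by rw [(hmem x hx).2]; exact (hmnle x).2.2)
      have e1 := hsum x
      have e2 := hsum y
      rw [h1, h2, add_assoc] at e1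
      rw [add_assoc] at e2
      exact Prod.ext (add_right_cancel (e1.trans e2.symm)) h1
    -- position 2
    have k2 : ∑ x ∈ Pc.filter (fun x => nsq x.2 = mn x.1 x.2 (th x)), T x ≤
        ((4 : ℝ) ^ (c + 1)) ^ s * (Real.sqrt (B * (4 : ℝ) ^ c * E) * ∑ v ∈ Sh n c, f v ^ 2) := by
      rw [hE]
      refine le_trans (Finset.sum_le_sum fun x hx => hTle x (Finset.mem_filter.1 hx).1 x.2 x.1
        (th x) (Finset.mem_filter.1 hx).2 (by ring)) ?_
      rw [← Finset.mul_sum]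
      refine mul_le_mul_of_nonneg_left ?_ h4s
      have hmem : ∀ x ∈ Pc.filter (fun x => nsq x.2 = mn x.1 x.2 (th x)),
          x ∈ Pc ∧ nsq x.2 = mn x.1 x.2 (th x) := fun x hx => Finset.mem_filter.1 hx
      have hm : ∀ x : Wv × Wv, mx x.1 (th x) x.2 = mx x.1 x.2 (th x) := by
        intro x
        unfold mx
        rw [max_comm (nsq (th x))]
      refine shell hD n c f _ (fun x => x.2) (fun x => x.1) th
        (fun x hx => (hPc' x (hmem x hx).1).2.1) (fun x hx => (hPc' x (hmem x hx).1).1)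
        (fun x hx => (hPc' x (hmem x hx).1).2.2.1)
        (fun x _ => by rw [add_comm x.2 x.1]; exact hsum x)
        (fun x _ y _ h1 h2 => ?_)
        (fun x hx => by rw [h23]; exact (hPc' x (hmem x hx).1).2.2.2.1)
        (fun x hx => by rw [hm]; exact (hPc' x (hmem x hx).1).2.2.2.2.1)
        (fun x hx => by rw [hm]; exact (hPc' x (hmem x hx).1).2.2.2.2.2)
        (fun x hx => by rw [(hmem x hx).2]; exact (hmnle x).1)
        (fun x hx => by rw [(hmem x hx).2]; exact (hmnle x).2.2)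
      have e1 := hsum x
      have e2 := hsum y
      rw [h1, h2] at e1
      exact Prod.ext h1 (add_left_cancel (add_right_cancel (e1.trans e2.symm)))
    -- position 3
    have k3 : ∑ x ∈ Pc.filter (fun x => nsq (th x) = mn x.1 x.2 (th x)), T x ≤
        ((4 : ℝ) ^ (c + 1)) ^ s * (Real.sqrt (B * (4 : ℝ) ^ c * E) * ∑ v ∈ Sh n c, f v ^ 2) := by
      rw [hE]
      refine le_trans (Finset.sum_le_sum fun x hx => hTle x (Finset.mem_filter.1 hx).1 (th x) x.1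
        x.2 (Finset.mem_filter.1 hx).2 (by ring)) ?_
      rw [← Finset.mul_sum]
      refine mul_le_mul_of_nonneg_left ?_ h4s
      have hmem : ∀ x ∈ Pc.filter (fun x => nsq (th x) = mn x.1 x.2 (th x)),
          x ∈ Pc ∧ nsq (th x) = mn x.1 x.2 (th x) := fun x hx => Finset.mem_filter.1 hx
      exact shell hD n c f _ th (fun x => x.1) (fun x => x.2)
        (fun x hx => (hPc' x (hmem x hx).1).2.2.1) (fun x hx => (hPc' x (hmem x hx).1).1)
        (fun x hx => (hPc' x (hmem x hx).1).2.1)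
        (fun x _ => by
          have := hsum x
          rw [← this]
          abel)
        (fun x _ y _ h1 h2 => Prod.ext h1 h2)
        (fun x hx => (hPc' x (hmem x hx).1).2.2.2.1)
        (fun x hx => (hPc' x (hmem x hx).1).2.2.2.2.1)
        (fun x hx => (hPc' x (hmem x hx).1).2.2.2.2.2)
        (fun x hx => by rw [(hmem x hx).2]; exact (hmnle x).1)
        (fun x hx => by rw [(hmem x hx).2]; exact (hmnle x).2.1)
    have hsplit : ∑ x ∈ Pc, T x ≤
        ∑ x ∈ Pc.filter (fun x => nsq x.1 = mn x.1 x.2 (th x)), T x +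
        ∑ x ∈ Pc.filter (fun x => nsq x.2 = mn x.1 x.2 (th x)), T x +
        ∑ x ∈ Pc.filter (fun x => nsq (th x) = mn x.1 x.2 (th x)), T x := by
      rw [Finset.sum_filter, Finset.sum_filter, Finset.sum_filter, ← Finset.sum_add_distrib,
        ← Finset.sum_add_distrib]
      refine Finset.sum_le_sum fun x _ => ?_
      have h0 := hT0 x
      have hcase : nsq x.1 = mn x.1 x.2 (th x) ∨ nsq x.2 = mn x.1 x.2 (th x) ∨
          nsq (th x) = mn x.1 x.2 (th x) := by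
        unfold mn
        rcases min_choice (nsq x.1) (min (nsq x.2) (nsq (th x))) with h | h
        · exact Or.inl h.symm
        · rw [h]
          rcases min_choice (nsq x.2) (nsq (th x)) with h' | h'
          · exact Or.inr (Or.inl h'.symm)
          · exact Or.inr (Or.inr h'.symm)
      have n1 : ∀ p : Prop, [Decidable p] → 0 ≤ if p then T x else 0 := by
        intro p _
        split_ifs
        · exact h0
        · exact le_rfl
      rcases hcase with h | h | h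
      · have a2 := n1 (nsq x.2 = mn x.1 x.2 (th x))
        have a3 := n1 (nsq (th x) = mn x.1 x.2 (th x))
        rw [if_pos h]
        linarith
      · have a2 := n1 (nsq x.1 = mn x.1 x.2 (th x))
        have a3 := n1 (nsq (th x) = mn x.1 x.2 (th x))
        rw [if_pos h]
        linarith
      · have a2 := n1 (nsq x.1 = mn x.1 x.2 (th x))
        have a3 := n1 (nsq x.2 = mn x.1 x.2 (th x))
        rw [if_pos h]
        linarith
    linarith
  refine (Finset.sum_le_sum hone).trans ?_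
  have htwo : ∀ c ∈ P.image cc, 3 * (((4 : ℝ) ^ (c + 1)) ^ s *
      (Real.sqrt (B * (4 : ℝ) ^ c * E) * ∑ v ∈ Sh n c, f v ^ 2)) ≤
      6 * 16 ^ s * Real.sqrt (B * E) *
        ∑ v ∈ Sh n c, nsq v ^ s * Real.sqrt (nsq v) * f v ^ 2 := by
    intro c _
    have := shell_weight B E n c s f
    linarith
  refine (Finset.sum_le_sum htwo).trans ?_
  rw [← Finset.mul_sum]
  have h7 := shells_le n (P.image cc) (fun v => nsq v ^ s * Real.sqrt (nsq v) * f v ^ 2)
    (fun v => by have := nsq_nn v; positivity)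
  have h8 : ∑ v ∈ cub n, nsq v ^ s * Real.sqrt (nsq v) * f v ^ 2 ≤
      Real.sqrt (∑ k ∈ cub n, nsq k ^ s * f k ^ 2) *
        Real.sqrt (∑ k ∈ cub n, nsq k ^ (s + 1) * f k ^ 2) := by
    have h9 := Real.sum_mul_le_sqrt_mul_sqrt (cub n) (fun v => Real.sqrt (nsq v ^ s) * f v)
      (fun v => Real.sqrt (nsq v ^ (s + 1)) * f v)
    have e1 : ∀ v ∈ cub n, (Real.sqrt (nsq v ^ s) * f v) ^ 2 = nsq v ^ s * f v ^ 2 := by
      intro v _
      rw [mul_pow, Real.sq_sqrt (pow_nonneg (nsq_nn v) s)]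
    have e2 : ∀ v ∈ cub n, (Real.sqrt (nsq v ^ (s + 1)) * f v) ^ 2 = nsq v ^ (s + 1) * f v ^ 2 := by
      intro v _
      rw [mul_pow, Real.sq_sqrt (pow_nonneg (nsq_nn v) (s + 1))]
    have e3 : ∀ v ∈ cub n, Real.sqrt (nsq v ^ s) * f v * (Real.sqrt (nsq v ^ (s + 1)) * f v) =
        nsq v ^ s * Real.sqrt (nsq v) * f v ^ 2 := by
      intro v _
      have e4 : Real.sqrt (nsq v ^ (s + 1)) = Real.sqrt (nsq v ^ s) * Real.sqrt (nsq v) := by
        rw [pow_succ, Real.sqrt_mul (pow_nonneg (nsq_nn v) s)]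
      have e5 : Real.sqrt (nsq v ^ s) * Real.sqrt (nsq v ^ s) = nsq v ^ s :=
        Real.mul_self_sqrt (pow_nonneg (nsq_nn v) s)
      rw [e4]
      calc Real.sqrt (nsq v ^ s) * f v * (Real.sqrt (nsq v ^ s) * Real.sqrt (nsq v) * f v)
          = (Real.sqrt (nsq v ^ s) * Real.sqrt (nsq v ^ s)) * Real.sqrt (nsq v) * f v ^ 2 := by
            ring
        _ = _ := by rw [e5]
    rw [Finset.sum_congr rfl e1, Finset.sum_congr rfl e2, Finset.sum_congr rfl e3] at h9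
    exact h9
  calc 6 * 16 ^ s * Real.sqrt (B * E) * ∑ c ∈ P.image cc,
        ∑ v ∈ Sh n c, nsq v ^ s * Real.sqrt (nsq v) * f v ^ 2
      ≤ 6 * 16 ^ s * Real.sqrt (B * E) * (2 * (Real.sqrt (∑ k ∈ cub n, nsq k ^ s * f k ^ 2) *
        Real.sqrt (∑ k ∈ cub n, nsq k ^ (s + 1) * f k ^ 2))) := by
        refine mul_le_mul_of_nonneg_left (h7.trans ?_) (by positivity)
        exact mul_le_mul_of_nonneg_left h8 (by norm_num)
    _ = _ := by
        rw [Real.sqrt_mul hB]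
        ring

end Pool.Agent.U123.DX
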